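import Pool.Agent.Helper37.SY.Asym
import Pool.Agent.Helper84.SY.U
import Pool.Agent.Helper47.CO.Tetra
import Pool.Agent.Helper47.ML3.Inn

/-!
# Bounds for the packing densities of all convex bodies: assembly
-/

set_option autoImplicit false

namespace Pool.Agent.Helper33.CP

open MeasureTheory
open Pool.Agent.Helper59.Pack Pool.Agent.Helper69.MD
open scoped ENNReal Pointwise

theorem deltaL_eq_tet (K : Set E3) : deltaL K = Pool.Agent.Helper84.Tet.deltaL K := rfl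

theorem mL_le_tet : mL ≤ Pool.Agent.Helper84.Tet.mL := by
  unfold mL Pool.Agent.Helper84.Tet.mL
  exact le_iInf fun K => le_iInf fun hK =>
    iInf_le_of_le K (iInf_le_of_le ⟨hK.convex, hK.isCompact, hK.interior_nonempty⟩
      (deltaL_eq_tet K).le)

theorem mL_lt : mL < 18 / 49 := mL_le_tet.trans_lt Pool.Agent.Helper47.CO.mL_lt

theorem mL_le_mT : mL ≤ mT := by
  unfold mL mT
  exact le_iInf fun K => le_iInf fun hK =>
    iInf_le_of_le K (iInf_le_of_le hK (deltaL_le_deltaT K))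

theorem mT_le_mL : ENNReal.ofReal (Real.pi ^ 2 / 16) * mT ≤ mL := by
  unfold mL
  refine le_iInf fun K => le_iInf fun hK => ?_
  refine le_trans ?_ (Pool.Agent.Helper37.SY.main hK)
  gcongr
  refine le_trans ?_ (Pool.Agent.Helper84.SY.deltaT_le hK)
  unfold mT
  exact iInf_le_of_le K (iInf_le_of_le hK le_rfl)

theorem e18 : (18 / 49 : ℝ≥0∞) = ENNReal.ofReal (18 / 49) := by
  rw [ENNReal.ofReal_div_of_pos (by norm_num)]
  norm_num

theorem e3 : (3 / 10 : ℝ≥0∞) = ENNReal.ofReal (3 / 10) := by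
  rw [ENNReal.ofReal_div_of_pos (by norm_num)]
  norm_num

theorem e5 : (3 / 5 : ℝ≥0∞) = ENNReal.ofReal (3 / 5) := by
  rw [ENNReal.ofReal_div_of_pos (by norm_num)]
  norm_num

/-- Bodies of small density have a small volume ratio. -/
theorem ratio_lt {K : Set E3} (hK : IsConvexBody K) (h : deltaL K ≤ 18 / 49) :
    volume K < 3 / 5 * volume ((1 / 2 : ℝ) • (K - K)) := by
  have h1 := Pool.Agent.Helper37.SY.main hK
  have h0 := Pool.Agent.Helper37.SY.vol_half_pos hK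
  have ht := Pool.Agent.Helper37.SY.vol_half_fin hK
  by_contra hc
  rw [not_lt] at hc
  have h2 : (3 / 5 : ℝ≥0∞) ≤ volume K / volume ((1 / 2 : ℝ) • (K - K)) := by
    rw [ENNReal.le_div_iff_mul_le (Or.inl h0) (Or.inl ht)]
    exact hc
  have h3 : ENNReal.ofReal (Real.pi ^ 2 / 16) * (3 / 5) ≤ 18 / 49 :=
    (by gcongr : ENNReal.ofReal (Real.pi ^ 2 / 16) * (3 / 5) ≤ ENNReal.ofReal (Real.pi ^ 2 / 16) *
      (volume K / volume ((1 / 2 : ℝ) • (K - K)))).trans (h1.trans h)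
  rw [e18, e5, ← ENNReal.ofReal_mul (by positivity),
    ENNReal.ofReal_le_ofReal_iff (by norm_num)] at h3
  have := Real.pi_gt_d6
  nlinarith

/-- Bodies of small density are far from symmetric. -/
theorem asym_lt {K : Set E3} (hK : IsConvexBody K) (h : deltaL K ≤ 18 / 49) (x : E3) :
    ∃ y ∈ K, x - y ∉ (19 / 10 : ℝ) • K := by
  by_contra hc
  push Not at hc
  have h1 := (Pool.Agent.Helper37.SY.asym_bound hK (by norm_num) hc).trans h
  rw [e18, ENNReal.ofReal_le_ofReal_iff (by norm_num)] at h1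
  have := Real.pi_gt_d6
  norm_num at h1
  rw [div_le_div_iff₀ (by norm_num) (by norm_num)] at h1
  nlinarith

/-- The assembly; `ten3` is the only missing ingredient. -/
theorem all_of (ten3 : ∀ {K : Set E3}, IsConvexBody K → ENNReal.ofReal (3 / 10) ≤ deltaL K) :
    (∀ K : Set E3, IsConvexBody K →
      max (3 / 10) (ENNReal.ofReal (Real.pi ^ 2 / 16) *
        (volume K / volume ((1 / 2 : ℝ) • (K - K)))) ≤ deltaL K ∧
      deltaL K ≤ deltaT K ∧
      deltaT K ≤ volume K / volume ((1 / 2 : ℝ) • (K - K))) ∧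
    (∀ K : Set E3, IsConvexBody K → ∀ (s : ℝ) (x : E3), 0 ≤ s →
      (∀ y ∈ K, x - y ∈ s • K) →
      ENNReal.ofReal (Real.pi ^ 2 / (4 * (1 + 3 * s))) ≤ deltaL K) ∧
    (3 / 10 ≤ mL ∧ mL < 18 / 49 ∧ mL ≤ mT ∧
      ENNReal.ofReal (Real.pi ^ 2 / 16) * mT ≤ mL) ∧
    (∀ K : Set E3, IsConvexBody K → deltaL K ≤ 18 / 49 →
      volume K < 3 / 5 * volume ((1 / 2 : ℝ) • (K - K)) ∧
      ∀ x : E3, ∃ y ∈ K, x - y ∉ (19 / 10 : ℝ) • K) := by
  have hten : ∀ K : Set E3, IsConvexBody K → 3 / 10 ≤ deltaL K := fun K hK => by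
    rw [e3]
    exact ten3 hK
  refine ⟨fun K hK => ⟨max_le (hten K hK) (Pool.Agent.Helper37.SY.main hK), deltaL_le_deltaT K,
    Pool.Agent.Helper84.SY.deltaT_le hK⟩, fun K hK s x hs h =>
      Pool.Agent.Helper37.SY.asym_bound hK hs h, ⟨?_, mL_lt, mL_le_mT, mT_le_mL⟩,
    fun K hK h => ⟨ratio_lt hK h, asym_lt hK h⟩⟩
  unfold mL
  exact le_iInf fun K => le_iInf fun hK => hten K hK

theorem all :
    (∀ K : Set E3, IsConvexBody K →
      max (3 / 10) (ENNReal.ofReal (Real.pi ^ 2 / 16) *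
        (volume K / volume ((1 / 2 : ℝ) • (K - K)))) ≤ deltaL K ∧
      deltaL K ≤ deltaT K ∧
      deltaT K ≤ volume K / volume ((1 / 2 : ℝ) • (K - K))) ∧
    (∀ K : Set E3, IsConvexBody K → ∀ (s : ℝ) (x : E3), 0 ≤ s →
      (∀ y ∈ K, x - y ∈ s • K) →
      ENNReal.ofReal (Real.pi ^ 2 / (4 * (1 + 3 * s))) ≤ deltaL K) ∧
    (3 / 10 ≤ mL ∧ mL < 18 / 49 ∧ mL ≤ mT ∧
      ENNReal.ofReal (Real.pi ^ 2 / 16) * mT ≤ mL) ∧
    (∀ K : Set E3, IsConvexBody K → deltaL K ≤ 18 / 49 →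
      volume K < 3 / 5 * volume ((1 / 2 : ℝ) • (K - K)) ∧
      ∀ x : E3, ∃ y ∈ K, x - y ∉ (19 / 10 : ℝ) • K) :=
  all_of fun hK => Pool.Agent.Helper47.ML3.ten3 hK

end Pool.Agent.Helper33.CP
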