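import Pool.Agent.Helper33.CP.Facet

/-!
# Lower bounds for the volume of a convex set containing a tetrahedron
-/

set_option autoImplicit false
namespace Pool.Agent.Helper33.CP
open MeasureTheory Metric Set
open Pool.Agent.Helper59.Pack Pool.Agent.Helper69.MD
open scoped ENNReal Pointwise

/-- The region over the facet `k`. -/
def reg (b : AffineBasis (Fin 4) ℝ E3) (K : Set E3) (p : Fin 4 → Fin 4 → ℝ) (k : Fin 4) : Set E3 :=
  {x | x ∈ K ∧ b.coord k x ≤ 0 ∧ ∀ m, m ≠ k → p m k * b.coord k x ≤ p k m * b.coord m x}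

theorem reg_convex (b : AffineBasis (Fin 4) ℝ E3) {K : Set E3} (hK : Convex ℝ K)
    (p : Fin 4 → Fin 4 → ℝ) (k : Fin 4) : Convex ℝ (reg b K p k) := by
  have h1 : Convex ℝ {x | b.coord k x ≤ 0} := (convex_Iic (0 : ℝ)).affine_preimage (b.coord k)
  have h2 : ∀ m, Convex ℝ {x | p m k * b.coord k x ≤ p k m * b.coord m x} := by
    intro m
    have h3 := (convex_Iic (0 : ℝ)).affine_preimage (p m k • b.coord k - p k m • b.coord m)
    have e : {x | p m k * b.coord k x ≤ p k m * b.coord m x} =
        (p m k • b.coord k - p k m • b.coord m) ⁻¹' Iic (0 : ℝ) := by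
      ext x
      change p m k * b.coord k x ≤ p k m * b.coord m x ↔
        p m k * b.coord k x - p k m * b.coord m x ≤ 0
      rw [sub_nonpos]
    rw [e]
    exact h3
  have e : reg b K p k = K ∩ ({x | b.coord k x ≤ 0} ∩ ⋂ m, ⋂ (_ : m ≠ k),
      {x | p m k * b.coord k x ≤ p k m * b.coord m x}) := by
    ext x
    simp only [reg, mem_ofPred_eq, mem_inter_iff, mem_iInter]
  rw [e]
  exact hK.inter (h1.inter (convex_iInter₂ fun m _ => h2 m))

theorem tet_sub {b : AffineBasis (Fin 4) ℝ E3} {K : Set E3} (hK : Convex ℝ K) (ht : ∀ i, b i ∈ K) :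
    tet b ⊆ K := by
  rw [← Q_self]
  exact Q_subset b hK ht

/-- **Caps over the edges.** -/
theorem vol_caps (b : AffineBasis (Fin 4) ℝ E3) {K : Set E3} (hK : Convex ℝ K) (ht : ∀ i, b i ∈ K)
    (hle : ∀ x ∈ K, ∀ i, b.coord i x ≤ 1) (hge : ∀ x ∈ K, ∀ i, -(1 / 2) ≤ b.coord i x)
    (z : Fin 4 → Fin 4 → E3) (hz : ∀ i j, z i j ∈ K) (hzs : ∀ i j, z i j = z j i)
    (d : Fin 4 → Fin 4 → ℝ) (hd0 : ∀ i j, i ≠ j → 0 ≤ d i j)
    (hd : ∀ i j, i ≠ j → -b.coord i (z i j) - b.coord j (z i j) = d i j) :
    ENNReal.ofReal (1 + (d 0 1 + d 0 2 + d 0 3 + d 1 2 + d 1 3 + d 2 3) / 2) * volume (tet b) ≤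
      volume K := by
  classical
  have hds : ∀ i j, i ≠ j → d i j = d j i := by
    intro i j hij
    rw [← hd i j hij, ← hd j i hij.symm, hzs j i]
    ring
  obtain ⟨h, hh⟩ : ∃ h : Fin 4 → Fin 4 → ℝ, ∀ k m, h k m = -b.coord k (z k m) := ⟨_, fun _ _ => rfl⟩
  have hsumd : ∀ k m, m ≠ k → h k m + h m k = d k m := by
    intro k m hkm
    rw [hh, hh, ← hd k m hkm.symm, hzs m k]
    ring
  set p : Fin 4 → Fin 4 → ℝ := fun k m => if h k m ≤ 0 ∧ h m k ≤ 0 then 1 else max (h k m) 0 with hp
  have hp0 : ∀ k m, 0 ≤ p k m := by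
    intro k m
    simp only [hp]
    split_ifs
    · exact zero_le_one
    · exact le_max_right _ _
  have hpne : ∀ k m, m ≠ k → p k m ≠ 0 ∨ p m k ≠ 0 := by
    intro k m _
    simp only [hp]
    by_cases h1 : h k m ≤ 0
    · by_cases h2 : h m k ≤ 0
      · left
        rw [if_pos ⟨h1, h2⟩]
        exact one_ne_zero
      · right
        rw [if_neg (fun hc => h2 hc.1)]
        push Not at h2
        exact (lt_of_lt_of_le h2 (le_max_left _ _)).ne'
    · left
      rw [if_neg (fun hc => h1 hc.1)]
      push Not at h1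
      exact (lt_of_lt_of_le h1 (le_max_left _ _)).ne'
  have hthird : ∀ k m l, m ≠ k → l ≠ k → l ≠ m → 0 ≤ b.coord l (z k m) := by
    intro k m l hkm hl1 hl2
    obtain ⟨q, hq1, hq2, hq3⟩ : ∃ q : Fin 4, q ≠ k ∧ q ≠ m ∧ q ≠ l := by
      revert k m l
      decide
    have hs := b.sum_coord_apply_eq_one (z k m)
    rw [sum4 hkm hl1 hl2 hq1 hq2 hq3] at hs
    have h1 := hd k m hkm.symm
    have h2 := hd0 k m hkm.symm
    have h3 := hle _ (hz k m) q
    linarith
  have hreg : ∀ k, ∃ C ⊆ reg b K p k, MeasurableSet C ∧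
      ENNReal.ofReal ((∑ m ∈ Finset.univ.erase k, max 0 (min (h k m) (d k m))) / 2) *
        volume (tet b) ≤ volume C := by
    intro k
    have h1 := facet b k (reg_convex b hK p k) (fun i hi => by
      refine ⟨ht i, by rw [b.coord_apply_ne (Ne.symm hi)], fun m hm => ?_⟩
      rw [b.coord_apply_ne (Ne.symm hi), mul_zero]
      refine mul_nonneg (hp0 k m) ?_
      rw [b.coord_apply]
      split_ifs
      · exact zero_le_one
      · exact le_rfl) (z k) (d k) (fun m hm => hd0 k m hm.symm) (fun m hm => hd k m hm.symm)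
      (fun m hm hpos => by
        rw [← hh] at hpos
        refine ⟨hz k m, by linarith [hh k m], fun l hl => ?_⟩
        have hck : b.coord k (z k m) = -h k m := by rw [hh]; ring
        by_cases hlm : l = m
        · rw [hlm]
          have hcm : b.coord m (z k m) = -h m k := by rw [hh, hzs m k]; ring
          have e1 : p k m = h k m := by
            simp only [hp]
            rw [if_neg (fun hc => absurd hc.1 (not_le.2 hpos)), max_eq_left hpos.le]
          have e2 : p m k = max (h m k) 0 := by
            simp only [hp]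
            rw [if_neg (fun hc => absurd hc.2 (not_le.2 hpos))]
          rw [hck, hcm, e1, e2]
          have e3 : h k m * h m k ≤ h k m * max (h m k) 0 :=
            mul_le_mul_of_nonneg_left (le_max_left _ _) hpos.le
          linarith
        · have e1 := hthird k m l hm hl hlm
          rw [hck]
          have e2 : 0 ≤ p k l * b.coord l (z k m) := mul_nonneg (hp0 k l) e1
          have e3 : 0 ≤ p l k * h k m := mul_nonneg (hp0 l k) hpos.le
          linarith)
      (fun m hm => by
        have := hge _ (hz k m) k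
        linarith)
    simpa only [← hh] using h1
  choose C hCs hCm hCv using hreg
  have hass := assemble b (tet_sub hK ht) C hCm (fun k => (hCs k).trans fun x hx => hx.1)
    (fun k x hx => (hCs k hx).2.1) p hpne (fun k m hkm x hx => (hCs k hx).2.2 m hkm)
  obtain ⟨c, hc⟩ : ∃ c : Fin 4 → Fin 4 → ℝ, ∀ k m, c k m = max 0 (min (h k m) (d k m)) :=
    ⟨_, fun _ _ => rfl⟩
  have hcsum : ∀ k m, m ≠ k → c k m + c m k = d k m := by
    intro k m hkm
    have e1 := hsumd k m hkm
    have e2 := hd0 k m hkm.symm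
    rw [hc, hc, ← hds k m hkm.symm]
    rcases le_total 0 (h k m) with h1 | h1
    · rcases le_total 0 (h m k) with h2 | h2
      · rw [min_eq_left (by linarith), min_eq_left (by linarith), max_eq_right h1, max_eq_right h2]
        exact e1
      · rw [min_eq_right (by linarith), min_eq_left (by linarith), max_eq_right e2, max_eq_left h2,
          add_zero]
    · rw [min_eq_left (by linarith), min_eq_right (by linarith), max_eq_left h1, max_eq_right e2,
        zero_add]
  have hc0 : ∀ k m, 0 ≤ c k m := fun k m => by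
    rw [hc]
    exact le_max_left _ _
  have hS : ∀ k, 0 ≤ (∑ m ∈ Finset.univ.erase k, c k m) / 2 := fun k =>
    div_nonneg (Finset.sum_nonneg fun m _ => hc0 k m) (by norm_num)
  have e1 : 1 + (d 0 1 + d 0 2 + d 0 3 + d 1 2 + d 1 3 + d 2 3) / 2 =
      1 + ∑ k, (∑ m ∈ Finset.univ.erase k, c k m) / 2 := by
    rw [sum4 (k := 0) (m := 1) (l := 2) (l' := 3) (by decide) (by decide) (by decide) (by decide)
      (by decide) (by decide),
      sum3 (k := 0) (m := 1) (l := 2) (l' := 3) (by decide) (by decide) (by decide) (by decide)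
      (by decide) (by decide),
      sum3 (k := 1) (m := 0) (l := 2) (l' := 3) (by decide) (by decide) (by decide) (by decide)
      (by decide) (by decide),
      sum3 (k := 2) (m := 0) (l := 1) (l' := 3) (by decide) (by decide) (by decide) (by decide)
      (by decide) (by decide),
      sum3 (k := 3) (m := 0) (l := 1) (l' := 2) (by decide) (by decide) (by decide) (by decide)
      (by decide) (by decide)]
    have a1 := hcsum 0 1 (by decide)
    have a2 := hcsum 0 2 (by decide)
    have a3 := hcsum 0 3 (by decide)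
    have a4 := hcsum 1 2 (by decide)
    have a5 := hcsum 1 3 (by decide)
    have a6 := hcsum 2 3 (by decide)
    linarith
  rw [e1, ENNReal.ofReal_add zero_le_one (Finset.sum_nonneg fun k _ => hS k), add_mul,
    ENNReal.ofReal_one, one_mul, ENNReal.ofReal_sum_of_nonneg fun k _ => hS k, Finset.sum_mul]
  refine le_trans (add_le_add le_rfl (Finset.sum_le_sum fun k _ => ?_)) hass
  have := hCv k
  simpa only [← hc] using this

/-- **Caps over the facets.** -/
theorem vol_sigma (b : AffineBasis (Fin 4) ℝ E3) {K : Set E3} (hK : Convex ℝ K) (ht : ∀ i, b i ∈ K)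
    (z : Fin 4 → E3) (hz : ∀ i, z i ∈ K) (hmin : ∀ i, ∀ x ∈ K, b.coord i (z i) ≤ b.coord i x) :
    ENNReal.ofReal (1 - ∑ i, b.coord i (z i)) * volume (tet b) ≤ volume K := by
  classical
  obtain ⟨β, hβ⟩ : ∃ β : Fin 4 → ℝ, ∀ k, β k = -b.coord k (z k) := ⟨_, fun _ => rfl⟩
  have hβ0 : ∀ k, 0 ≤ β k := by
    intro k
    have h1 := hmin k (b (k + 1)) (ht _)
    rw [b.coord_apply_ne (Ne.symm (succ_ne k))] at h1
    rw [hβ]
    linarith
  set p : Fin 4 → Fin 4 → ℝ := fun k m => if β k = 0 ∧ β m = 0 then 1 else β k with hp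
  have hp0 : ∀ k m, 0 ≤ p k m := by
    intro k m
    simp only [hp]
    split_ifs
    · exact zero_le_one
    · exact hβ0 k
  have hpne : ∀ k m, m ≠ k → p k m ≠ 0 ∨ p m k ≠ 0 := by
    intro k m _
    simp only [hp]
    by_cases h1 : β k = 0
    · by_cases h2 : β m = 0
      · left
        rw [if_pos ⟨h1, h2⟩]
        exact one_ne_zero
      · right
        rw [if_neg (fun hc => h2 hc.1)]
        exact h2
    · left
      rw [if_neg (fun hc => h1 hc.1)]
      exact h1
  have hreg : ∀ k, Q b (Function.update b k (z k)) ⊆ reg b K p k := by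
    intro k
    refine Q_subset b (reg_convex b hK p k) fun i => ?_
    by_cases hi : i = k
    · rw [hi, Function.update_self]
      refine ⟨hz k, by linarith [hβ k, hβ0 k], fun m hm => ?_⟩
      have e1 : b.coord k (z k) = -β k := by rw [hβ]; ring
      have e2 : -β m ≤ b.coord m (z k) := by
        rw [hβ, neg_neg]
        exact hmin m _ (hz k)
      rw [e1]
      simp only [hp]
      by_cases h1 : β k = 0 ∧ β m = 0
      · rw [if_pos h1, if_pos ⟨h1.2, h1.1⟩, h1.1]
        rw [h1.2] at e2
        linarith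
      · rw [if_neg h1, if_neg (fun hc => h1 ⟨hc.2, hc.1⟩)]
        have := mul_le_mul_of_nonneg_left e2 (hβ0 k)
        linarith
    · rw [Function.update_of_ne hi]
      refine ⟨ht i, by rw [b.coord_apply_ne (Ne.symm hi)], fun m hm => ?_⟩
      rw [b.coord_apply_ne (Ne.symm hi), mul_zero]
      refine mul_nonneg (hp0 k m) ?_
      rw [b.coord_apply]
      split_ifs
      · exact zero_le_one
      · exact le_rfl
  have hv : ∀ k, volume (Q b (Function.update b k (z k))) = ENNReal.ofReal (β k) * volume (tet b) := by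
    intro k
    rw [vol_Q_update b b k (z k) (b.coord k) (fun i => by
      rw [b.coord_apply]
      simp only [eq_comm]), Q_self, ← abs_neg, ← hβ, abs_of_nonneg (hβ0 k)]
  have hass := assemble b (tet_sub hK ht) (fun k => Q b (Function.update b k (z k)))
    (fun k => (Q_compact b _).isClosed.measurableSet) (fun k => (hreg k).trans fun x hx => hx.1)
    (fun k x hx => (hreg k hx).2.1) p hpne (fun k m hkm x hx => (hreg k hx).2.2 m hkm)
  have e1 : 1 - ∑ i, b.coord i (z i) = 1 + ∑ i, β i := by
    simp only [hβ, Finset.sum_neg_distrib]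
    ring
  rw [e1, ENNReal.ofReal_add zero_le_one (Finset.sum_nonneg fun k _ => hβ0 k), add_mul,
    ENNReal.ofReal_one, one_mul, ENNReal.ofReal_sum_of_nonneg fun k _ => hβ0 k, Finset.sum_mul]
  simp only [hv] at hass
  exact hass

end Pool.Agent.Helper33.CP
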