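import Pool.Agent.Helper33.CP.Tet

/-!
# Caps over the facets of a tetrahedron
-/

set_option autoImplicit false
namespace Pool.Agent.Helper33.CP
open MeasureTheory Metric Set
open Pool.Agent.Helper59.Pack Pool.Agent.Helper69.MD
open scoped ENNReal Pointwise

theorem others : ∀ k m : Fin 4, m ≠ k → ∃ l l' : Fin 4, l ≠ k ∧ l ≠ m ∧ l' ≠ k ∧ l' ≠ m ∧ l' ≠ l := by
  decide

theorem succ_ne : ∀ k : Fin 4, k + 1 ≠ k := by decide

theorem univ4 : ∀ k m l l' : Fin 4, m ≠ k → l ≠ k → l ≠ m → l' ≠ k → l' ≠ m → l' ≠ l →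
    (Finset.univ : Finset (Fin 4)) = {k, m, l, l'} := by
  decide

theorem erase4 : ∀ k m l l' : Fin 4, m ≠ k → l ≠ k → l ≠ m → l' ≠ k → l' ≠ m → l' ≠ l →
    (Finset.univ : Finset (Fin 4)).erase k = {m, l, l'} := by
  decide

theorem sum4 {k m l l' : Fin 4} (h1 : m ≠ k) (h2 : l ≠ k) (h3 : l ≠ m) (h4 : l' ≠ k) (h5 : l' ≠ m)
    (h6 : l' ≠ l) (f : Fin 4 → ℝ) : ∑ i, f i = f k + f m + f l + f l' := by
  rw [univ4 k m l l' h1 h2 h3 h4 h5 h6, Finset.sum_insert, Finset.sum_insert, Finset.sum_insert,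
    Finset.sum_singleton]
  · ring
  · simp [h6.symm]
  · simp [h3.symm, h5.symm]
  · simp [h1.symm, h2.symm, h4.symm]

theorem sum3 {k m l l' : Fin 4} (h1 : m ≠ k) (h2 : l ≠ k) (h3 : l ≠ m) (h4 : l' ≠ k) (h5 : l' ≠ m)
    (h6 : l' ≠ l) (f : Fin 4 → ℝ) : ∑ i ∈ Finset.univ.erase k, f i = f m + f l + f l' := by
  rw [erase4 k m l l' h1 h2 h3 h4 h5 h6, Finset.sum_insert, Finset.sum_insert, Finset.sum_singleton]
  · ring
  · simp [h6.symm]
  · simp [h3.symm, h5.symm]

theorem assemble (b : AffineBasis (Fin 4) ℝ E3) {K : Set E3} (hT : tet b ⊆ K)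
    (C : Fin 4 → Set E3) (hCm : ∀ k, MeasurableSet (C k)) (hCK : ∀ k, C k ⊆ K)
    (hC0 : ∀ k, ∀ x ∈ C k, b.coord k x ≤ 0)
    (p : Fin 4 → Fin 4 → ℝ) (hp : ∀ k m, m ≠ k → p k m ≠ 0 ∨ p m k ≠ 0)
    (hsep : ∀ k m, m ≠ k → ∀ x ∈ C k, p m k * b.coord k x ≤ p k m * b.coord m x) :
    volume (tet b) + ∑ k, volume (C k) ≤ volume K := by
  have hd : ∀ k m, m ≠ k → AEDisjoint volume (C k) (C m) := by
    intro k m hkm
    obtain ⟨l, l', hl1, hl2, -, -, -⟩ := others k m hkm
    set φ : E3 →ᵃ[ℝ] ℝ := p m k • b.coord k - p k m • b.coord m with hφ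
    have hφx : ∀ x, φ x = p m k * b.coord k x - p k m * b.coord m x := fun x => rfl
    have h1 : C k ∩ C m ⊆ {x | φ x = 0} := by
      rintro x ⟨hx1, hx2⟩
      have e1 := hsep k m hkm x hx1
      have e2 := hsep m k hkm.symm x hx2
      change φ x = 0
      rw [hφx]
      linarith
    refine measure_mono_null h1 ?_
    have hl0 : φ (b l) = 0 := by
      rw [hφx, b.coord_apply_ne hl1.symm, b.coord_apply_ne hl2.symm]
      ring
    rcases hp k m hkm with h | h
    · refine null_of (v := b m) (w := b l) ?_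
      rw [hl0, hφx, b.coord_apply_ne hkm.symm, b.coord_apply_eq]
      simpa using h
    · refine null_of (v := b k) (w := b l) ?_
      rw [hl0, hφx, b.coord_apply_ne hkm, b.coord_apply_eq]
      simpa using h
  have hdT : ∀ k, AEDisjoint volume (tet b) (C k) := by
    intro k
    have hk : (∃ m : Fin 4, m ≠ k) := ⟨k + 1, succ_ne k⟩
    obtain ⟨m, hm⟩ := hk
    have h1 : tet b ∩ C k ⊆ {x | b.coord k x = 0} := by
      rintro x ⟨hx1, hx2⟩
      exact le_antisymm (hC0 k x hx2) (hx1 k)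
    refine measure_mono_null h1 (null_of (v := b k) (w := b m) ?_)
    rw [b.coord_apply_eq, b.coord_apply_ne hm.symm]
    exact one_ne_zero
  have h1 : volume (⋃ k ∈ (Finset.univ : Finset (Fin 4)), C k) = ∑ k, volume (C k) :=
    measure_biUnion_finset₀ (fun k _ m _ hkm => hd k m (Ne.symm hkm)) fun k _ => (hCm k).nullMeasurableSet
  have h2 : AEDisjoint volume (tet b) (⋃ k ∈ (Finset.univ : Finset (Fin 4)), C k) := by
    unfold AEDisjoint
    rw [inter_iUnion₂]
    exact (measure_biUnion_null_iff (Finset.countable_toSet _)).2 fun k _ => hdT k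
  rw [← h1, ← measure_union₀ (MeasurableSet.nullMeasurableSet
    (Finset.measurableSet_biUnion _ fun k _ => hCm k)) h2]
  refine measure_mono (union_subset hT (iUnion₂_subset fun k _ => hCK k))

theorem facet (b : AffineBasis (Fin 4) ℝ E3) (k : Fin 4) {K' : Set E3} (hK' : Convex ℝ K')
    (ht : ∀ i, i ≠ k → b i ∈ K') (w : Fin 4 → E3) (d : Fin 4 → ℝ)
    (hd0 : ∀ m, m ≠ k → 0 ≤ d m)
    (hd : ∀ m, m ≠ k → -b.coord k (w m) - b.coord m (w m) = d m)
    (hw : ∀ m, m ≠ k → 0 < -b.coord k (w m) → w m ∈ K')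
    (hH : ∀ m, m ≠ k → -b.coord k (w m) ≤ 1 / 2) :
    ∃ C ⊆ K', MeasurableSet C ∧
      ENNReal.ofReal ((∑ m ∈ Finset.univ.erase k, max 0 (min (-b.coord k (w m)) (d m))) / 2) *
        volume (tet b) ≤ volume C := by
  classical
  set c : Fin 4 → ℝ := fun m => max 0 (min (-b.coord k (w m)) (d m)) with hc
  have hne : (Finset.univ.erase k).Nonempty :=
    ⟨k + 1, Finset.mem_erase.2 ⟨succ_ne k, Finset.mem_univ _⟩⟩
  obtain ⟨m, hm, hmax⟩ := Finset.exists_max_image (Finset.univ.erase k)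
    (fun m => -b.coord k (w m)) hne
  have hmk : m ≠ k := (Finset.mem_erase.1 hm).1
  have hmax' : ∀ l, l ≠ k → -b.coord k (w l) ≤ -b.coord k (w m) := fun l hl =>
    hmax l (Finset.mem_erase.2 ⟨hl, Finset.mem_univ _⟩)
  obtain ⟨H, hHd⟩ : ∃ H, H = -b.coord k (w m) := ⟨_, rfl⟩
  rw [← hHd] at hmax'
  rcases le_or_gt H 0 with hH0 | hH0
  · refine ⟨∅, empty_subset _, MeasurableSet.empty, ?_⟩
    have h1 : ∑ m ∈ Finset.univ.erase k, c m = 0 := by
      refine Finset.sum_eq_zero fun l hl => ?_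
      refine max_eq_left ((min_le_left _ _).trans ?_)
      exact (hmax' l (Finset.mem_erase.1 hl).1).trans hH0
    rw [h1, zero_div, ENNReal.ofReal_zero, zero_mul]
    exact bot_le
  have hcH : ∀ l, l ≠ k → c l ≤ H := fun l hl =>
    max_le hH0.le ((min_le_left _ _).trans (hmax' l hl))
  have hH12 : H ≤ 1 / 2 := by
    rw [hHd]
    exact hH m hmk
  have hwm : w m ∈ K' := hw m hmk (by rw [← hHd]; exact hH0)
  -- a third index with a large coordinate
  obtain ⟨l, l', hl1, hl2, hl'1, hl'2, hll', hbig⟩ : ∃ l l' : Fin 4, l ≠ k ∧ l ≠ m ∧ l' ≠ k ∧ l' ≠ m ∧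
      l' ≠ l ∧ 1 / 2 ≤ b.coord l (w m) := by
    obtain ⟨l, l', h1, h2, h3, h4, h5⟩ := others k m hmk
    have hs := b.sum_coord_apply_eq_one (w m)
    rw [sum4 hmk h1 h2 h3 h4 h5] at hs
    have hdm := hd m hmk
    have hd0m := hd0 m hmk
    rcases le_total (1 / 2) (b.coord l (w m)) with h | h
    · exact ⟨l, l', h1, h2, h3, h4, h5, h⟩
    · exact ⟨l', l, h3, h4, h1, h2, h5.symm, by linarith⟩
  have hck : b.coord k (w m) = -H := by rw [hHd]; ring
  -- first tetrahedron
  set p₁ : Fin 4 → E3 := Function.update b k (w m) with hp₁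
  have hp₁K : ∀ i, p₁ i ∈ K' := by
    intro i
    by_cases hi : i = k
    · rw [hi, hp₁, Function.update_self]
      exact hwm
    · rw [hp₁, Function.update_of_ne hi]
      exact ht i hi
  have hv1 : volume (Q b p₁) = ENNReal.ofReal H * volume (tet b) := by
    rw [hp₁, vol_Q_update b b k (w m) (b.coord k) (fun i => by
      rw [b.coord_apply]
      simp only [eq_comm]), Q_self, hck, abs_neg, abs_of_pos hH0]
  have hQ1 : Q b p₁ ⊆ K' := Q_subset b hK' hp₁K
  have hsum : ∑ i ∈ Finset.univ.erase k, c i = c m + c l + c l' := sum3 hmk hl1 hl2 hl'1 hl'2 hll' c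
  have hcm := hcH m hmk
  have hcl := hcH l hl1
  have hcl' := hcH l' hl'1
  rcases le_or_gt (-b.coord k (w l)) 0 with h0 | h0
  · -- only one tetrahedron
    have hcl0 : c l = 0 := max_eq_left ((min_le_left _ _).trans h0)
    refine ⟨Q b p₁, hQ1, (Q_compact b p₁).isClosed.measurableSet, ?_⟩
    rw [hv1, hsum]
    gcongr
    linarith
  -- second tetrahedron
  have hwl : w l ∈ K' := hw l hl1 h0
  obtain ⟨h', hh'⟩ : ∃ h', h' = -b.coord k (w l) := ⟨_, rfl⟩
  have hckl : b.coord k (w l) = -h' := by rw [hh']; ring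
  rw [← hh'] at h0
  have hdl := hd l hl1
  rw [hckl] at hdl
  have hcll : b.coord l (w l) = h' - d l := by linarith
  set μ : E3 →ᵃ[ℝ] ℝ := b.coord l - (b.coord l (w m) / b.coord k (w m)) • b.coord k with hμ
  have hμx : ∀ x, μ x = b.coord l x - (b.coord l (w m) / b.coord k (w m)) * b.coord k x :=
    fun x => rfl
  have hμp : ∀ i, μ (p₁ i) = if i = l then 1 else 0 := by
    intro i
    by_cases hi : i = k
    · rw [hi, hp₁, Function.update_self, hμx, hck, if_neg hl1.symm]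
      field_simp
      ring
    · rw [hp₁, Function.update_of_ne hi, hμx, b.coord_apply_ne (Ne.symm hi), mul_zero, sub_zero,
        b.coord_apply]
      simp only [eq_comm]
  have hμw : H * μ (w l) = H * (h' - d l) - b.coord l (w m) * h' := by
    rw [hμx, hck, hckl, hcll]
    field_simp
  have hcl2 : c l ≤ h' := by
    rw [hc]
    refine max_le h0.le ((min_le_left _ _).trans ?_)
    rw [← hh']
  have hcl3 : c l ≤ d l := max_le (hd0 l hl1) (min_le_right _ _)
  have hcl0 : 0 ≤ c l := le_max_left _ _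
  have hextra : c l / 2 ≤ -(H * μ (w l)) := by
    rw [hμw]
    have e1 : 0 ≤ (b.coord l (w m) - H) * (h' - c l) :=
      mul_nonneg (by linarith) (by linarith)
    have e2 : 0 ≤ H * (d l - c l) := mul_nonneg hH0.le (by linarith)
    have e3 : 0 ≤ (b.coord l (w m) - 1 / 2) * c l := mul_nonneg (by linarith) hcl0
    nlinarith
  have hμneg : μ (w l) ≤ 0 := by
    by_contra hcon
    push Not at hcon
    have := mul_pos hH0 hcon
    linarith
  set p₂ : Fin 4 → E3 := Function.update p₁ l (w l) with hp₂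
  have hp₂K : ∀ i, p₂ i ∈ K' := by
    intro i
    by_cases hi : i = l
    · rw [hi, hp₂, Function.update_self]
      exact hwl
    · rw [hp₂, Function.update_of_ne hi]
      exact hp₁K i
  have hv2 : volume (Q b p₂) = ENNReal.ofReal (-(H * μ (w l))) * volume (tet b) := by
    rw [hp₂, vol_Q_update b p₁ l (w l) μ hμp, hv1, ← mul_assoc, ← ENNReal.ofReal_mul (abs_nonneg _),
      abs_of_nonpos hμneg]
    congr 2
    ring
  have hdis : AEDisjoint volume (Q b p₁) (Q b p₂) := by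
    have h1 : Q b p₁ ⊆ {x | 0 ≤ μ x} := by
      refine Q_subset b ((convex_Ici (0 : ℝ)).affine_preimage μ) fun i => ?_
      change 0 ≤ μ (p₁ i)
      rw [hμp]
      split_ifs
      · exact zero_le_one
      · exact le_rfl
    have h2 : Q b p₂ ⊆ {x | μ x ≤ 0} := by
      refine Q_subset b ((convex_Iic (0 : ℝ)).affine_preimage μ) fun i => ?_
      change μ (p₂ i) ≤ 0
      by_cases hi : i = l
      · rw [hi, hp₂, Function.update_self]
        exact hμneg
      · rw [hp₂, Function.update_of_ne hi, hμp, if_neg hi]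
    have h3 : Q b p₁ ∩ Q b p₂ ⊆ {x | μ x = 0} := fun x hx => le_antisymm (h2 hx.2) (h1 hx.1)
    refine measure_mono_null h3 (null_of (v := p₁ l) (w := p₁ k) ?_)
    rw [hμp, hμp, if_pos rfl, if_neg hl1.symm]
    exact one_ne_zero
  refine ⟨Q b p₁ ∪ Q b p₂, union_subset hQ1 (Q_subset b hK' hp₂K),
    (Q_compact b p₁).isClosed.measurableSet.union (Q_compact b p₂).isClosed.measurableSet, ?_⟩
  rw [measure_union₀ (Q_compact b p₂).isClosed.measurableSet.nullMeasurableSet hdis, hv1, hv2, hsum,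
    ← add_mul, ← ENNReal.ofReal_add hH0.le (by linarith)]
  gcongr
  linarith

end Pool.Agent.Helper33.CP
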