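import Pool.Agent.Helper33.CP.Caps

/-!
# Affine coordinates given by functions
-/

set_option autoImplicit false
namespace Pool.Agent.Helper33.CP
open MeasureTheory Metric Set
open Pool.Agent.Helper59.Pack Pool.Agent.Helper69.MD
open scoped ENNReal Pointwise

/-- Affine functions dual to four points are the coordinates of an affine basis. -/
theorem exists_basis {lam : Fin 4 → E3 → ℝ} {t : Fin 4 → E3}
    (haff : ∀ i, ∃ (u : E3) (c : ℝ), ∀ x, lam i x = c + inner ℝ u x)
    (hdiag : ∀ i j, lam j (t i) = if i = j then 1 else 0) :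
    ∃ b : AffineBasis (Fin 4) ℝ E3, (∀ i, b i = t i) ∧ ∀ i x, b.coord i x = lam i x := by
  classical
  choose u c huc using haff
  have hind : AffineIndependent ℝ t := by
    rw [affineIndependent_iff_of_fintype]
    intro w hw0 hw1 j
    rw [Finset.weightedVSub_eq_linear_combination _ hw0] at hw1
    have h1 : inner ℝ (u j) (∑ i, w i • t i) = 0 := by rw [hw1, inner_zero_right]
    rw [inner_sum] at h1
    have h2 : ∀ i, inner ℝ (u j) (w i • t i) = w i * (if i = j then 1 else 0) - w i * c j := by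
      intro i
      rw [inner_smul_right, ← hdiag i j, huc]
      ring
    rw [Finset.sum_congr rfl fun i _ => h2 i, Finset.sum_sub_distrib, ← Finset.sum_mul, hw0] at h1
    simpa using h1
  have htop : affineSpan ℝ (range t) = ⊤ := by
    rw [hind.affineSpan_eq_top_iff_card_eq_finrank_add_one]
    simp
  obtain ⟨b, hb⟩ : ∃ b : AffineBasis (Fin 4) ℝ E3, ∀ i, b i = t i := ⟨⟨t, hind, htop⟩, fun _ => rfl⟩
  refine ⟨b, hb, fun j x => ?_⟩
  let L : E3 →ᵃ[ℝ] ℝ := AffineMap.const ℝ E3 (c j) + (innerₛₗ ℝ (u j)).toAffineMap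
  have hL : ∀ x, L x = lam j x := fun x => (huc j x).symm
  have h1 := map_comb L (b.sum_coord_apply_eq_one x) b
  rw [b.linear_combination_coord_eq_self, hL] at h1
  rw [h1]
  simp [hL, hb, hdiag]

theorem sigma {K : Set E3} (hK : Convex ℝ K) {lam : Fin 4 → E3 → ℝ} {t z : Fin 4 → E3}
    (haff : ∀ i, ∃ (u : E3) (c : ℝ), ∀ x, lam i x = c + inner ℝ u x)
    (hdiag : ∀ i j, lam j (t i) = if i = j then 1 else 0)
    (ht : ∀ i, t i ∈ K) (hz : ∀ i, z i ∈ K) (hmin : ∀ i, ∀ x ∈ K, lam i (z i) ≤ lam i x) :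
    ENNReal.ofReal (1 + ∑ i, -lam i (z i)) * volume {x | ∀ i, 0 ≤ lam i x} ≤ volume K := by
  obtain ⟨b, hb, hc⟩ := exists_basis haff hdiag
  have h1 := vol_sigma b hK (fun i => by rw [hb]; exact ht i) z hz (fun i x hx => by
    rw [hc, hc]
    exact hmin i x hx)
  have e : tet b = {x | ∀ i, 0 ≤ lam i x} := by
    ext x
    simp [tet, hc]
  rw [e] at h1
  simpa only [hc, Finset.sum_neg_distrib, ← sub_eq_add_neg] using h1

theorem caps {K : Set E3} (hK : Convex ℝ K) {lam : Fin 4 → E3 → ℝ} {t : Fin 4 → E3}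
    (haff : ∀ i, ∃ (u : E3) (c : ℝ), ∀ x, lam i x = c + inner ℝ u x)
    (hdiag : ∀ i j, lam j (t i) = if i = j then 1 else 0)
    (ht : ∀ i, t i ∈ K) (hle : ∀ x ∈ K, ∀ i, lam i x ≤ 1) (hge : ∀ x ∈ K, ∀ i, -(1 / 2) ≤ lam i x)
    {d : Fin 4 → Fin 4 → ℝ} (hds : ∀ i j, d i j = d j i) (hd0 : ∀ i j, i ≠ j → 0 ≤ d i j)
    (hd : ∀ k l, k ≠ l → ∃ z ∈ K, -lam k z - lam l z = d k l) :
    ENNReal.ofReal (1 + (d 0 1 + d 0 2 + d 0 3 + d 1 2 + d 1 3 + d 2 3) / 2) *
      volume {x | ∀ i, 0 ≤ lam i x} ≤ volume K := by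
  classical
  obtain ⟨b, hb, hc⟩ := exists_basis haff hdiag
  have hex : ∀ k l : Fin 4, ∃ z ∈ K, k ≠ l → -lam k z - lam l z = d k l := by
    intro k l
    by_cases hkl : k = l
    · exact ⟨t 0, ht 0, fun h => absurd hkl h⟩
    · obtain ⟨z, hz, h⟩ := hd k l hkl
      exact ⟨z, hz, fun _ => h⟩
  choose z₀ hz₀ hz₁ using hex
  set z : Fin 4 → Fin 4 → E3 := fun k l => z₀ (min k l) (max k l) with hz
  have h1 := vol_caps b hK (fun i => by rw [hb]; exact ht i)
    (fun x hx i => by rw [hc]; exact hle x hx i) (fun x hx i => by rw [hc]; exact hge x hx i)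
    z (fun k l => hz₀ _ _) (fun k l => by simp only [hz, min_comm, max_comm]) d hd0
    (fun k l hkl => by
      rw [hc, hc]
      rcases lt_or_gt_of_ne hkl with h | h
      · have := hz₁ k l hkl
        simp only [hz, min_eq_left h.le, max_eq_right h.le]
        exact this
      · have := hz₁ l k hkl.symm
        simp only [hz, min_eq_right h.le, max_eq_left h.le]
        rw [hds k l, ← this]
        ring)
  have e : tet b = {x | ∀ i, 0 ≤ lam i x} := by
    ext x
    simp [tet, hc]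
  rw [e] at h1
  exact h1

end Pool.Agent.Helper33.CP
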