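import Pool.Agent.Helper33.CP.Frame
import Pool.Agent.Helper47.ML3.Defs

/-!
# The two inequalities in the notation of `Helper47.ML3.Defs`
-/

set_option autoImplicit false
namespace Pool.Agent.Helper33.CP
open Pool.Agent.Helper47.ML3

theorem hSigma : HSigma := fun hK _ _ _ h ht hz hm => sigma hK h.aff h.diag ht hz hm

theorem hCaps : HCaps := fun hK _ _ h ht hle hge _ hds hd0 hd =>
  caps hK h.aff h.diag ht hle hge hds hd0 hd

end Pool.Agent.Helper33.CP
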