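import Pool.Agent.Helper59.Pack.Section

/-!
# Volumes of tetrahedra
-/

set_option autoImplicit false
namespace Pool.Agent.Helper33.CP
open MeasureTheory Metric Set
open Pool.Agent.Helper59.Pack Pool.Agent.Helper69.MD
open scoped ENNReal Pointwise

/-- The tetrahedron of an affine basis. -/
def tet (b : AffineBasis (Fin 4) ℝ E3) : Set E3 := {x | ∀ i, 0 ≤ b.coord i x}

/-- The tetrahedron with the vertices `p i` (as the image of the tetrahedron of the basis). -/
def Q (b : AffineBasis (Fin 4) ℝ E3) (p : Fin 4 → E3) : Set E3 :=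
  (fun x => ∑ i, b.coord i x • p i) '' tet b

theorem vol_shift (φ : E3 →ᵃ[ℝ] ℝ) {v w : E3} (hv : φ v = 1) (S : Set E3) :
    volume ((fun x => x + φ x • (w - v)) '' S) = ENNReal.ofReal |φ w| * volume S := by
  have hφ : ∀ x, φ x = φ.linear x + φ 0 := fun x => by
    have := congrFun (φ.decomp) x
    simpa using this
  have e : (fun x => x + φ x • (w - v)) '' S = (fun y => y + φ 0 • (w - v)) ''
      ((LinearMap.transvection φ.linear (w - v)) '' S) := by
    rw [image_image]
    refine image_congr fun x _ => ?_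
    rw [LinearMap.transvection.apply, hφ x, add_smul]
    abel
  rw [e, image_add_right, measure_preimage_add_right, Measure.addHaar_image_linearMap,
    LinearMap.transvection.det]
  congr 3
  have h1 := hφ w
  have h2 := hφ v
  rw [map_sub]
  linarith

theorem map_comb (φ : E3 →ᵃ[ℝ] ℝ) {c : Fin 4 → ℝ} (hc : ∑ i, c i = 1) (p : Fin 4 → E3) :
    φ (∑ i, c i • p i) = ∑ i, c i * φ (p i) := by
  have hφ : ∀ x, φ x = φ.linear x + φ 0 := fun x => by
    have := congrFun (φ.decomp) x
    simpa using this
  rw [hφ, map_sum]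
  simp only [map_smul, smul_eq_mul]
  have : ∑ i, c i * φ (p i) = ∑ i, c i * φ.linear (p i) + (∑ i, c i) * φ 0 := by
    rw [Finset.sum_mul, ← Finset.sum_add_distrib]
    refine Finset.sum_congr rfl fun i _ => ?_
    rw [hφ (p i)]
    ring
  rw [this, hc, one_mul]

theorem tet_eq (b : AffineBasis (Fin 4) ℝ E3) : tet b = convexHull ℝ (range b) := by
  rw [AffineBasis.convexHull_eq_nonneg_coord]
  rfl

theorem tet_compact (b : AffineBasis (Fin 4) ℝ E3) : IsCompact (tet b) := by
  rw [tet_eq]
  exact (finite_range b).isCompact_convexHull ℝ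

theorem continuous_coord (b : AffineBasis (Fin 4) ℝ E3) (i : Fin 4) : Continuous (b.coord i) :=
  AffineMap.continuous_of_finiteDimensional _

theorem Q_compact (b : AffineBasis (Fin 4) ℝ E3) (p : Fin 4 → E3) : IsCompact (Q b p) := by
  refine (tet_compact b).image ?_
  refine continuous_finsetSum _ fun i _ => ?_
  exact (continuous_coord b i).smul continuous_const

theorem Q_self (b : AffineBasis (Fin 4) ℝ E3) : Q b b = tet b := by
  have : (fun x => ∑ i, b.coord i x • b i) = id := by
    funext x
    exact b.linear_combination_coord_eq_self x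
  unfold Q
  rw [this, image_id]

theorem Q_subset (b : AffineBasis (Fin 4) ℝ E3) {p : Fin 4 → E3} {C : Set E3} (hC : Convex ℝ C)
    (hp : ∀ i, p i ∈ C) : Q b p ⊆ C := by
  rintro _ ⟨x, hx, rfl⟩
  exact hC.sum_mem (fun i _ => hx i) (b.sum_coord_apply_eq_one x) fun i _ => hp i

theorem vol_Q_update (b : AffineBasis (Fin 4) ℝ E3) (p : Fin 4 → E3) (m : Fin 4) (w : E3)
    (μ : E3 →ᵃ[ℝ] ℝ) (hμ : ∀ i, μ (p i) = if i = m then 1 else 0) :
    volume (Q b (Function.update p m w)) = ENNReal.ofReal |μ w| * volume (Q b p) := by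
  have hm : μ (p m) = 1 := by rw [hμ, if_pos rfl]
  rw [← vol_shift μ (w := w) hm]
  congr 1
  unfold Q
  rw [image_image]
  refine image_congr fun x _ => ?_
  have h1 : μ (∑ i, b.coord i x • p i) = b.coord m x := by
    rw [map_comb μ (b.sum_coord_apply_eq_one x)]
    simp [hμ]
  rw [h1]
  have h2 : ∑ i, b.coord i x • Function.update p m w i - ∑ i, b.coord i x • p i =
      b.coord m x • (w - p m) := by
    rw [← Finset.sum_sub_distrib, Finset.sum_eq_single m]
    · rw [Function.update_self, smul_sub]
    · intro i _ hi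
      rw [Function.update_of_ne hi, sub_self]
    · intro h
      exact absurd (Finset.mem_univ m) h
  rw [← h2]
  abel

theorem null_of {φ : E3 →ᵃ[ℝ] ℝ} {v w : E3} (h : φ v ≠ φ w) : volume {x | φ x = 0} = 0 := by
  have hs : ((AffineSubspace.comap φ (affineSpan ℝ {(0 : ℝ)})) : Set E3) = {x | φ x = 0} := by
    ext x
    simp
  rw [← hs]
  refine Measure.addHaar_affineSubspace _ _ fun htop => h ?_
  have h1 : ∀ x, φ x = 0 := by
    intro x
    have : x ∈ (AffineSubspace.comap φ (affineSpan ℝ {(0 : ℝ)})) := by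
      rw [htop]
      trivial
    have h2 : x ∈ ((AffineSubspace.comap φ (affineSpan ℝ {(0 : ℝ)})) : Set E3) := this
    rw [hs] at h2
    exact h2
  rw [h1, h1]

end Pool.Agent.Helper33.CP
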